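import Pool.Agent.H85.FD.Adm
import Pool.Agent.H52.FD.Big

/-!
# Project FD: the splitting criterion for the residue degrees, over number fields
-/

open Polynomial NumberField IsDedekindDomain H9FC

namespace H31FD

open H45KC Pool.Agent.H73.FD H52FD H85FD

section
variable {K : Type*} [Field K] [NumberField K] {p : ℕ} [Fact p.Prime]

/-- local degree and residue degree -/
noncomputable def deg (v : HeightOneSpectrum (𝓞 K)) : ℕ × ℕ :=
  (v.asIdeal.ramificationIdx ℤ * v.asIdeal.inertiaDeg ℤ, v.asIdeal.inertiaDeg ℤ)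

theorem inertia_pos (P : Ideal (𝓞 K)) (hP : P.IsPrime) (hpP : (p : 𝓞 K) ∈ P) :
    0 < P.inertiaDeg ℤ := by
  obtain ⟨-, -, -, -, -, hcard⟩ := prime_data (p := p) P hP hpP
  rw [Nat.pos_iff_ne_zero]
  intro h0
  rw [h0, pow_zero, eq_comm, Nat.card_eq_one_iff_unique] at hcard
  exact hP.ne_top ((Ideal.Quotient.subsingleton_iff).1 hcard.1)

/-- the splitting for normalised integral solutions -/
theorem main_splits (hC : PalK K p) {a b c : 𝓞 K} (h : FSol K p a b c) (hcp : CopAt K p a b c)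
    (S : Finset (HeightOneSpectrum (𝓞 K)))
    (hS : ∀ v, v ∈ S ↔ (p : 𝓞 K) ∈ v.asIdeal ∧ a ∉ v.asIdeal ∧ b ∉ v.asIdeal ∧ c ∉ v.asIdeal) :
    Splits (p % 3) (p ^ 2 ∣ 2 ^ (p - 1) - 1) (S.val.map deg) := by
  classical
  have hpp : p.Prime := Fact.out
  obtain ⟨ψ, hψ⟩ := exists_redFam K p (AlgebraicClosure (ZMod p))
  have h5 := five_le hC
  have hb := hC.bound
  have hpow : ∀ k : ℕ, Odd (p ^ k) := by
    intro k
    apply Odd.pow
    rcases hpp.eq_two_or_odd' with h | h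
    · omega
    · exact h
  have hS3 := S3_of_palK hC h hcp hψ
  have hmem : ∀ i : {i // i ∈ ZZ ψ a b c}, (p : 𝓞 K) ∈ RingHom.ker (ψ i.1) ∧
      a ∉ RingHom.ker (ψ i.1) ∧ b ∉ RingHom.ker (ψ i.1) ∧ c ∉ RingHom.ker (ψ i.1) := fun i =>
    ⟨p_mem_ker _, ((mem_ZZ ψ a b c i.1).1 i.2).1, ((mem_ZZ ψ a b c i.1).1 i.2).2.1,
      ((mem_ZZ ψ a b c i.1).1 i.2).2.2⟩
  let κ : {i // i ∈ ZZ ψ a b c} → {v // v ∈ S} := fun i =>
    ⟨⟨RingHom.ker (ψ i.1), RingHom.ker_isPrime _,
      (prime_data (p := p) _ (RingHom.ker_isPrime _) (p_mem_ker _)).1⟩, (hS _).2 (hmem i)⟩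
  have hκ0 : ∀ i, (κ i).1.asIdeal = RingHom.ker (ψ i.1) := fun i => rfl
  have hκ1 : ∀ i P, κ i = P ↔ RingHom.ker (ψ i.1) = P.1.asIdeal := by
    intro i P
    rw [← hκ0 i]
    constructor
    · rintro rfl
      rfl
    · intro h
      exact Subtype.ext (HeightOneSpectrum.ext h)
  have hZ : ∀ (P : {v // v ∈ S}) (i : Fin (Module.finrank ℚ K)),
      RingHom.ker (ψ i) = P.1.asIdeal → i ∈ ZZ ψ a b c := by
    intro P i hi
    obtain ⟨-, ha, hb, hc⟩ := (hS P.1).1 P.2
    rw [mem_ZZ]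
    refine ⟨fun h => ha ?_, fun h => hb ?_, fun h => hc ?_⟩ <;>
    · rw [← hi]
      exact h
  have hκ : Function.Surjective κ := by
    intro P
    obtain ⟨i0, hi0⟩ := exists_redFam_ker hψ p P.1.asIdeal P.1.isPrime ((hS P.1).1 P.2).1
    exact ⟨⟨i0, hZ P i0 hi0⟩, (hκ1 _ _).2 hi0⟩
  have hcard : ∀ P : {v // v ∈ S}, Nat.card {i // κ i = P} =
      P.1.asIdeal.ramificationIdx ℤ * P.1.asIdeal.inertiaDeg ℤ := by
    intro P
    rw [← card_ker hψ P.1.asIdeal P.1.isPrime ((hS P.1).1 P.2).1]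
    exact Nat.card_congr
      { toFun := fun i => ⟨i.1.1, (hκ1 _ _).1 i.2⟩
        invFun := fun i => ⟨⟨i.1, hZ P i.1 i.2⟩, (hκ1 _ _).2 i.2⟩
        left_inv := fun i => rfl
        right_inv := fun i => rfl }
  have key := splits_of_S3 (p := p) (f := fun P => P.1.asIdeal.inertiaDeg ℤ) h5 hS3 hκ ?_ ?_ ?_
    (W := p ^ 2 ∣ 2 ^ (p - 1) - 1) ?_
  · have h1 : (Finset.univ : Finset {v // v ∈ S}).val.map (fun P =>
        (Nat.card {i // κ i = P}, P.1.asIdeal.inertiaDeg ℤ)) = S.val.map deg := by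
      have h2 : (fun P : {v // v ∈ S} => (Nat.card {i // κ i = P}, P.1.asIdeal.inertiaDeg ℤ)) =
          fun P => deg P.1 := by
        funext P
        rw [hcard]
        rfl
      rw [h2, Finset.univ_eq_attach, Finset.attach_val]
      exact Multiset.attach_map_val' S.val deg
    rw [← h1]
    exact key
  · intro i j hij
    obtain ⟨k, hk⟩ := frob_conj (p := p) (ψ i.1) (ψ j.1) (by
      rw [← hκ0, ← hκ0, hij])
    refine ⟨k, ?_⟩
    rw [(hpow k).neg_pow, div_pow, hk, hk]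
  · intro i
    show (-(ψ i.1 b / ψ i.1 a)) ^ p ^ ((κ i).1.asIdeal.inertiaDeg ℤ) = -(ψ i.1 b / ψ i.1 a)
    rw [(hpow _).neg_pow, div_pow, hκ0, pow_inertia, pow_inertia]
  · intro P
    exact inertia_pos (p := p) P.1.asIdeal P.1.isPrime ((hS P.1).1 P.2).1
  · rintro ⟨i, hi⟩
    by_contra hW
    have ha := ((mem_ZZ ψ a b c i.1).1 i.2).1
    have h2 := cm_one (by omega) (by omega) h hW (ψ i.1) ha
    apply h2
    have h3 : ψ i.1 b / ψ i.1 a = 1 := neg_injective hi
    rw [div_eq_one_iff_eq ha] at h3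
    exact h3.symm

/-- **The splitting criterion.**  `S` is the set of the places above `p` at which `a, b, c` have the
same valuation. -/
theorem fin_splits (hC : PalK K p) (a b c : K) (ha : a ≠ 0) (hb : b ≠ 0) (hc : c ≠ 0)
    (h : a ^ p + b ^ p + c ^ p = 0) (S : Finset (HeightOneSpectrum (𝓞 K)))
    (hS : ∀ v, v ∈ S ↔ (p : 𝓞 K) ∈ v.asIdeal ∧ v.valuation K a = v.valuation K b ∧
      v.valuation K b = v.valuation K c) :
    Splits (p % 3) (p ^ 2 ∣ 2 ^ (p - 1) - 1) (S.val.map deg) := by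
  obtain ⟨l, a', b', c', hl, ea, eb, ec, hF, hcp, -⟩ := exists_norm K p p a b c ha hb hc h
  refine main_splits hC hF hcp S fun v => ?_
  rw [hS v]
  constructor
  · rintro ⟨hv, h1⟩
    rw [← not_dv_iff ha hb hc h v, dv_iff hl ea eb ec hcp v hv, dv_iff hl eb ec ea hcp.rot v hv,
        dv_iff hl ec ea eb hcp.rot.rot v hv] at h1
    exact ⟨hv, h1⟩
  · rintro ⟨hv, h1⟩
    rw [← not_dv_iff ha hb hc h v, dv_iff hl ea eb ec hcp v hv, dv_iff hl eb ec ea hcp.rot v hv,
        dv_iff hl ec ea eb hcp.rot.rot v hv]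
    exact ⟨hv, h1⟩

variable (K) in
/-- the primes above `p` -/
theorem exists_primes (p : ℕ) (hp : p ≠ 0) :
    ∃ S : Finset (HeightOneSpectrum (𝓞 K)), ∀ v, v ∈ S ↔ (p : 𝓞 K) ∈ v.asIdeal := by
  have h0 : Ideal.span {(p : 𝓞 K)} ≠ 0 := by
    rw [Ne, Ideal.zero_eq_bot, Ideal.span_singleton_eq_bot]
    exact_mod_cast hp
  have h1 := Ideal.finite_factors h0
  refine ⟨h1.toFinset, fun v => ?_⟩
  rw [Set.Finite.mem_toFinset, Set.mem_ofPred_eq, Ideal.dvd_span_singleton]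

/-- a good place of residue degree prime to `6`: six good places -/
theorem six_le {r : ℕ} {W : Prop} {m : Multiset (ℕ × ℕ)} (h : Splits r W m) (hr : r ≠ 1)
    (hW : ¬ W) (hpos : ∀ k ∈ m, 0 < k.1) :
    ∀ k ∈ m, ¬ 2 ∣ k.2 → ¬ 3 ∣ k.2 → 6 ≤ Multiset.card m := by
  induction h with
  | nil =>
    intro k hk
    simp at hk
  | block n A s hk hs h ih =>
    intro k hkm h2 h3
    rw [Multiset.mem_add] at hkm
    rw [Multiset.card_add]
    rcases hkm with hkA | hks
    · rcases hk with rfl | ⟨-, h4⟩ | ⟨-, h4⟩ | ⟨-, -, h4⟩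
      · have hmem : ∀ i, ∀ x ∈ A i, x ∈ ∑ i, A i := fun i x hx =>
          Multiset.mem_of_le (Finset.single_le_sum (f := A) (fun _ _ => bot_le) (Finset.mem_univ i)) hx
        obtain ⟨i0, -, hi0⟩ := Multiset.mem_sum.1 hkA
        have hfs : ∀ j, 0 < fs (A j) := by
          intro j
          rw [hs j i0]
          have h5 : k.1 ≤ fs (A i0) :=
            Multiset.le_sum_of_mem (Multiset.mem_map_of_mem Prod.fst hi0)
          have h6 := hpos k (Multiset.mem_add.2 (Or.inl hkA))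
          omega
        have hc : ∀ j, 1 ≤ Multiset.card (A j) := by
          intro j
          rw [Nat.one_le_iff_ne_zero]
          intro h7
          rw [Multiset.card_eq_zero] at h7
          have h8 := hfs j
          rw [h7] at h8
          simp [fs] at h8
        have h9 : Multiset.card (∑ i, A i) = ∑ i, Multiset.card (A i) := map_sum Multiset.cardHom A _
        have h10 : ∑ i : Fin 6, 1 ≤ ∑ i, Multiset.card (A i) := Finset.sum_le_sum fun j _ => hc j
        rw [Finset.sum_const, Finset.card_univ, Fintype.card_fin, smul_eq_mul] at h10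
        omega
      · rcases h4 with h4 | h4
        · exact absurd h4 hW
        · exact absurd (h4 k hkA).two_dvd h2
      · rcases h4 with h4 | h4
        · exact absurd h4 hr
        · exact absurd (h4 k hkA) h3
      · exact absurd (h4 k hkA).two_dvd h2
    · have := ih (fun k hk => hpos k (Multiset.mem_add.2 (Or.inr hk))) k hks h2 h3
      omega

theorem deg_pos (v : HeightOneSpectrum (𝓞 K)) (hv : (p : 𝓞 K) ∈ v.asIdeal) : 0 < (deg v).1 := by
  obtain ⟨ψ, hψ⟩ := exists_redFam K p (AlgebraicClosure (ZMod p))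
  obtain ⟨i0, hi0⟩ := exists_redFam_ker hψ p v.asIdeal v.isPrime hv
  show 0 < v.asIdeal.ramificationIdx ℤ * v.asIdeal.inertiaDeg ℤ
  rw [← card_ker hψ v.asIdeal v.isPrime hv, Nat.card_pos_iff]
  exact ⟨⟨⟨i0, hi0⟩⟩, inferInstance⟩

/-- `p = 2` modulo `3`, `p` not Wieferich: if the residue degree of some good place is prime to `6`, there
are at least six good places. -/
theorem fin_six (hC : PalK K p) (hp3 : p % 3 = 2) (hW : ¬ p ^ 2 ∣ 2 ^ (p - 1) - 1) (a b c : K)
    (ha : a ≠ 0) (hb : b ≠ 0) (hc : c ≠ 0)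
    (h : a ^ p + b ^ p + c ^ p = 0) (S : Finset (HeightOneSpectrum (𝓞 K)))
    (hS : ∀ v, v ∈ S ↔ (p : 𝓞 K) ∈ v.asIdeal ∧ v.valuation K a = v.valuation K b ∧
      v.valuation K b = v.valuation K c) (v : HeightOneSpectrum (𝓞 K)) (hv : v ∈ S)
    (h2 : ¬ 2 ∣ v.asIdeal.inertiaDeg ℤ) (h3 : ¬ 3 ∣ v.asIdeal.inertiaDeg ℤ) : 6 ≤ S.card := by
  have h1 := fin_splits hC a b c ha hb hc h S hS
  have h4 := six_le h1 (by omega) hW (fun k hk => by
    obtain ⟨w, hw, rfl⟩ := Multiset.mem_map.1 hk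
    exact deg_pos (p := p) w ((hS w).1 hw).1) (deg v) (Multiset.mem_map_of_mem deg hv) h2 h3
  rwa [Multiset.card_map] at h4

/-- **The first case.**  If the degrees of the places above `p` do not split, there is no solution of the
first case. -/
theorem no_first (hC : PalK K p) (S : Finset (HeightOneSpectrum (𝓞 K)))
    (hS : ∀ v, v ∈ S ↔ (p : 𝓞 K) ∈ v.asIdeal)
    (hno : ¬ Splits (p % 3) (p ^ 2 ∣ 2 ^ (p - 1) - 1) (S.val.map deg)) (a b c : K)
    (ha : a ≠ 0) (hb : b ≠ 0) (hc : c ≠ 0) (h : a ^ p + b ^ p + c ^ p = 0)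
    (hv : ∀ v : HeightOneSpectrum (𝓞 K), (p : 𝓞 K) ∈ v.asIdeal →
      v.valuation K a = v.valuation K b ∧ v.valuation K b = v.valuation K c) : False :=
  hno (fin_splits hC a b c ha hb hc h S fun v =>
    ⟨fun h => ⟨(hS v).1 h, hv v ((hS v).1 h)⟩, fun h => (hS v).2 h.1⟩)

end

end H31FD
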